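import Pool.Agent.H.MP_a71740_an.N
set_option autoImplicit false

namespace Pool.Agent.Results.MP_4dc88f_an.No
open Pool.Agent.H.MP_1a7c10_an
open scoped ZeroAtInfty

universe v

theorem result (p : ℝ) (hp0 : 0 < p) (hp1 : p < 1) (X : Type) [AddCommGroup X] [Module ℝ X]
    (N : X → ℝ) (δ : C₀(ℕ, ℝ) → X) (hF : IsFree ℝ p (0 : C₀(ℕ, ℝ)) X N δ)
    (Z : Type v) [NormedAddCommGroup Z] [NormedSpace ℝ Z] [CompleteSpace Z] (T : Z →ₗ[ℝ] X)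
    (c C : ℝ) (hc : 0 < c) (hcC : c ≤ C) (hT : ∀ z, c * ‖z‖ ≤ N (T z) ∧ N (T z) ≤ C * ‖z‖) :
    FiniteDimensional ℝ Z :=
  Pool.Agent.H.MP_a71740_an.findim_of_schurP hp0 hp1
    (Pool.Agent.H.MP_a71740_an.isFree_schurP hp0 hp1 hF) T hc (fun z => (hT z).1)
    (fun z => (hT z).2)

end Pool.Agent.Results.MP_4dc88f_an.No
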